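import Pool.Agent.Y8.SK.St

/-!
# Pointwise bounds of the quantities in the equations of the corrected other modes
-/

open Set Filter Topology MeasureTheory

set_option autoImplicit false

namespace Pool.Agent.Y655.SK

open Pool.Agent.Y5.E (At Aw Ut Uw loc)
open Pool.Agent.Y5.F (vfk Yk Wk)
open Pool.Agent.Y6.S (Pe6 SysR Tk Rk ATk TTk Zp)
open Pool.Agent.Y8.EP (EE EE_pos dd Pp Pn zz th bb nb Cur Low Ub GrowE)
open Pool.Agent.Y8.SK

/-! ### sums -/

theorem G_le {s c : ℝ} {z : ℕ → ℝ} (hs0 : 0 ≤ s) (hs : s ≤ 1 / 10 ^ 15) (hc : 0 ≤ c) :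
    ∀ m : ℕ, (∀ p < m, z p ≤ c) →
      ∑ p ∈ Finset.range m, s ^ (m - 1 - p) * z p ≤ 1001 / 1000 * c := by
  intro m
  induction m with
  | zero =>
    intro _
    simp only [Finset.range_zero, Finset.sum_empty]
    positivity
  | succ m ih =>
    intro h
    rw [Gd.gsum_succ s z m]
    have h1 := ih fun p hp => h p (by omega)
    have h2 := h m (by omega)
    have h3 : s * ∑ p ∈ Finset.range m, s ^ (m - 1 - p) * z p ≤ 1 / 10 ^ 15 * (1001 / 1000 * c) := by
      calc s * ∑ p ∈ Finset.range m, s ^ (m - 1 - p) * z p ≤ s * (1001 / 1000 * c) := by gcongr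
        _ ≤ _ := by gcongr
    linarith

theorem TT_le {κ M : ℝ} {T : ℕ → ℝ} (hκ : 0 < κ) (hM : 0 ≤ M) (hT0 : ∀ k, 0 ≤ T k)
    (h : ∀ k, κ ^ k * T k ≤ M * (1 / 2) ^ k) :
    √(∑' k : ℕ, κ ^ (2 * k) * T k ^ 2) ≤ 2 * M := by
  apply Real.sqrt_le_iff.2
  refine ⟨by positivity, ?_⟩
  have hgeo : HasSum (fun k : ℕ => M ^ 2 * (1 / 4 : ℝ) ^ k) (M ^ 2 * (1 - 1 / 4)⁻¹) :=
    (hasSum_geometric_of_lt_one (by norm_num) (by norm_num)).mul_left _
  have h1 : ∑' k : ℕ, κ ^ (2 * k) * T k ^ 2 ≤ M ^ 2 * (1 - 1 / 4)⁻¹ := by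
    refine Real.tsum_le_of_sum_range_le (fun k => by positivity) fun m => ?_
    refine le_trans ?_ (sum_le_hasSum (Finset.range m) (fun k _ => by positivity) hgeo)
    refine Finset.sum_le_sum fun k _ => ?_
    have h2 := h k
    have h3 : 0 ≤ κ ^ k * T k := mul_nonneg (by positivity) (hT0 k)
    calc κ ^ (2 * k) * T k ^ 2 = (κ ^ k * T k) ^ 2 := by ring
      _ ≤ (M * (1 / 2) ^ k) ^ 2 := by gcongr
      _ = M ^ 2 * (1 / 4) ^ k := by
        rw [mul_pow, ← pow_mul, mul_comm k 2, pow_mul]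
        norm_num
  refine h1.trans ?_
  have : (1 - 1 / 4 : ℝ)⁻¹ ≤ 4 := by norm_num
  calc M ^ 2 * (1 - 1 / 4)⁻¹ ≤ M ^ 2 * 4 := by gcongr
    _ = _ := by ring

/-! ### exponentials -/

theorem expE {lam : ℝ} (h : 10 ^ 30 ≤ lam) (k : ℕ) (hk : k ≤ 2) {α β : ℝ}
    (hab : α + 1 / 100 ≤ β) : 10 ^ 6 * lam ^ k * Real.exp (α * lam) ≤ Real.exp (β * lam) := by
  have hl : 0 < lam := lt_of_lt_of_le (by norm_num) h
  have h1 : (10 : ℝ) ^ 6 * lam ^ k ≤ Real.exp (1 / 100 * lam) := by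
    have h2 : (1 / 400 * lam) ^ 4 / 1 ≤ Real.exp (1 / 100 * lam) := by
      have h3 : 1 / 400 * lam ≤ Real.exp (1 / 400 * lam) := by
        linarith [Real.add_one_le_exp (1 / 400 * lam)]
      calc (1 / 400 * lam) ^ 4 / 1 = (1 / 400 * lam) ^ 4 := by ring
        _ ≤ Real.exp (1 / 400 * lam) ^ 4 := by gcongr
        _ = Real.exp (1 / 100 * lam) := by
          rw [← Real.exp_nat_mul]
          congr 1
          push_cast
          ring
    refine le_trans ?_ h2
    have h4 : lam ^ k ≤ lam ^ 2 := pow_le_pow_right₀ (by linarith [h, (by norm_num : (1 : ℝ) ≤ 10 ^ 30)]) hk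
    have h5 : (10 : ℝ) ^ 6 * 400 ^ 4 ≤ lam ^ 2 := by
      have : ((10 : ℝ) ^ 30) ^ 2 ≤ lam ^ 2 := by gcongr
      refine le_trans ?_ this
      norm_num
    calc (10 : ℝ) ^ 6 * lam ^ k ≤ 10 ^ 6 * lam ^ 2 := by gcongr
      _ = (10 ^ 6 * 400 ^ 4) * lam ^ 2 / 400 ^ 4 := by ring
      _ ≤ lam ^ 2 * lam ^ 2 / 400 ^ 4 := by gcongr
      _ = _ := by ring
  calc 10 ^ 6 * lam ^ k * Real.exp (α * lam) ≤ Real.exp (1 / 100 * lam) * Real.exp (α * lam) := by
        gcongr
    _ = Real.exp ((α + 1 / 100) * lam) := by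
        rw [← Real.exp_add]
        congr 1
        ring
    _ ≤ _ := by
        apply Real.exp_le_exp.2
        gcongr

section

variable {κ lam N Q η : ℝ} {L C ℓ : ℕ → ℝ} {B : ℕ → ℕ → ℝ} {T : ℝ} {x w f : ℕ → ℝ → ℝ}
variable {n : ℕ} {t : ℝ}

/-- `lam exp (- lam / 250)` is small -/
theorem lρ (q : Pe6 κ lam N L C ℓ B) : lam * Real.exp (-(4 / 1000) * lam) ≤ 1 / 10 ^ 15 * (√lam)⁻¹ := by
  have h := q.lam_big
  have hl := q.lamp
  have h3 : 1 / 1000 * lam ≤ Real.exp (1 / 1000 * lam) := by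
    linarith [Real.add_one_le_exp (1 / 1000 * lam)]
  have h4 : (1 / 1000 * lam) ^ 4 ≤ Real.exp (4 / 1000 * lam) := by
    calc (1 / 1000 * lam) ^ 4 ≤ Real.exp (1 / 1000 * lam) ^ 4 := by gcongr
      _ = Real.exp (4 / 1000 * lam) := by
        rw [← Real.exp_nat_mul]
        congr 1
        push_cast
        ring
  have h5 : Real.exp (-(4 / 1000) * lam) ≤ ((1 / 1000 * lam) ^ 4)⁻¹ := by
    rw [show -(4 / 1000) * lam = -(4 / 1000 * lam) by ring, Real.exp_neg]
    exact inv_anti₀ (by positivity) h4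
  have h6 : (lam)⁻¹ ≤ (√lam)⁻¹ := by
    refine inv_anti₀ (by positivity) ?_
    have h7 : √lam ^ 2 = lam := Real.sq_sqrt hl.le
    have h8 : 1 ≤ √lam := by
      rw [Real.one_le_sqrt]
      exact q.lam1
    nlinarith
  have h9 : lam⁻¹ ≤ 1 / 10 ^ 30 := by
    rw [one_div]
    exact inv_anti₀ (by positivity) h
  calc lam * Real.exp (-(4 / 1000) * lam) ≤ lam * ((1 / 1000 * lam) ^ 4)⁻¹ := by gcongr
    _ = 10 ^ 12 * (lam⁻¹ * lam⁻¹) * lam⁻¹ := by field_simp; norm_num
    _ ≤ 10 ^ 12 * (1 / 10 ^ 30 * 1) * (√lam)⁻¹ := by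
        gcongr
        refine h9.trans (by norm_num)
    _ ≤ _ := by
        gcongr
        norm_num

theorem ρs (q : Pe6 κ lam N L C ℓ B) : Real.exp (-(4 / 1000) * lam) ≤ (√lam)⁻¹ := by
  have h1 := lρ q
  have h2 := q.lam1
  have h3 := Real.exp_pos (-(4 / 1000) * lam)
  have h4 := q.sq_lam0
  nlinarith

theorem η_tiny (g : Gd κ lam N Q η L C ℓ B T x w f) : η ≤ 1 / 10 ^ 20 := by
  refine g.ηs.trans ?_
  have := g.q.exp_small (β := -2) (by norm_num)
  rwa [show -2 * lam = -(2 * lam) by ring] at this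

/-- geometric decay of the barriers -/
theorem bh_geo (q : Pe6 κ lam N L C ℓ B) (hz : zz C x n t ≤ 1 + C n) {m : ℕ} (hm : n + 1 ≤ m) :
    ∀ k : ℕ, bh lam C x n (m + k) t ≤ Real.exp (-(4 / 1000) * lam) ^ k * bh lam C x n m t := by
  intro k
  induction k with
  | zero => simp
  | succ k ih =>
    have h1 := bh_dec q hz (p := m + k) (by omega)
    calc bh lam C x n (m + (k + 1)) t = bh lam C x n (m + k + 1) t := rfl
      _ ≤ Real.exp (-(4 / 1000) * lam) * bh lam C x n (m + k) t := h1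
      _ ≤ Real.exp (-(4 / 1000) * lam) * (Real.exp (-(4 / 1000) * lam) ^ k * bh lam C x n m t) := by
          gcongr
      _ = _ := by ring

theorem L_half (q : Pe6 κ lam N L C ℓ B) {m : ℕ} (hm : m ≤ n) : L m ≤ (1 / 2) ^ (n - m) * L n := by
  obtain ⟨k, rfl⟩ := Nat.exists_eq_add_of_le hm
  rw [Nat.add_sub_cancel_left, q.Lk]
  have h1 := q.Lp m
  have h2 : (1 : ℝ) ≤ (1 / 2 * lam) ^ k := one_le_pow₀ (by
    have := q.lam_big
    linarith [(by norm_num : (2 : ℝ) ≤ 10 ^ 30)])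
  calc L m = 1 * L m := by ring
    _ ≤ (1 / 2 * lam) ^ k * L m := by gcongr
    _ = _ := by rw [mul_pow]; ring

/-- the weighted rates -/
theorem wrate (q : Pe6 κ lam N L C ℓ B) (hz : zz C x n t ≤ 1 + C n) {m : ℕ} (hm : m ≤ n + 1) (k : ℕ) :
    κ ^ k * (L (m + k) * bh lam C x n (m + k) t) ≤
      (1 / 500) ^ (n + 1 - m) * L (n + 1) * (1 / 2) ^ k := by
  have hκ0 := q.κ0
  have hκ : κ ^ k ≤ (1 / 1000) ^ k := pow_le_pow_left₀ hκ0.le q.κs k
  rcases Nat.le_total (m + k) (n + 1) with h | h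
  · obtain ⟨j, hj⟩ := Nat.exists_eq_add_of_le h
    have e1 : n + 1 - m = k + j := by omega
    rw [e1, hj, q.Lk (m + k) j, bh_low h, mul_one]
    have h1 := q.Lp (m + k)
    have h2 : (1 : ℝ) ≤ (1 / 500 * lam) ^ j := one_le_pow₀ (by
      have := q.lam_big
      linarith [(by norm_num : (500 : ℝ) ≤ 10 ^ 30)])
    calc κ ^ k * L (m + k) ≤ (1 / 1000) ^ k * L (m + k) := by gcongr
      _ = ((1 / 1000) ^ k * L (m + k)) * 1 := by ring
      _ ≤ ((1 / 1000) ^ k * L (m + k)) * (1 / 500 * lam) ^ j := by gcongr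
      _ = (1 / 500) ^ (k + j) * (lam ^ j * L (m + k)) * (1 / 2) ^ k := by
        rw [pow_add, mul_pow, show (1 / 1000 : ℝ) = 1 / 500 * (1 / 2) by norm_num, mul_pow]
        ring
  · obtain ⟨i, hi⟩ := Nat.exists_eq_add_of_le h
    obtain ⟨j, hj⟩ := Nat.exists_eq_add_of_le hm
    have e1 : n + 1 - m = j := by omega
    have e2 : k = j + i := by omega
    rw [e1, hi, q.Lk]
    have h1 := q.Lp (n + 1)
    have h2 := bh_geo q hz (le_refl (n + 1)) i
    rw [bh_low le_rfl, mul_one] at h2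
    have h3 : lam * Real.exp (-(4 / 1000) * lam) ≤ 1 := by
      have h4 := lρ q
      have h5 := q.sq_lam
      have h6 := q.sq_lam0
      linarith
    have h4 : (lam * Real.exp (-(4 / 1000) * lam)) ^ i ≤ 1 := pow_le_one₀ (by
      have := q.lamp
      positivity) h3
    have hl := q.lamp
    have hb := bh_pos (lam := lam) (C := C) (x := x) (n := n) (t := t) (n + 1 + i)
    calc κ ^ k * (lam ^ i * L (n + 1) * bh lam C x n (n + 1 + i) t)
        ≤ (1 / 1000) ^ k * (lam ^ i * L (n + 1) * Real.exp (-(4 / 1000) * lam) ^ i) := by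
          gcongr
      _ = (1 / 1000) ^ k * L (n + 1) * (lam * Real.exp (-(4 / 1000) * lam)) ^ i := by
          rw [mul_pow]; ring
      _ ≤ (1 / 1000) ^ k * L (n + 1) * 1 := by gcongr
      _ = (1 / 1000) ^ j * L (n + 1) * (1 / 1000) ^ i := by rw [e2, pow_add]; ring
      _ ≤ (1 / 1000) ^ j * L (n + 1) * (1 / 2) ^ i := by
          gcongr
          norm_num
      _ = (1 / 500) ^ j * L (n + 1) * (1 / 2) ^ k := by
          rw [e2, pow_add, show (1 / 1000 : ℝ) = 1 / 500 * (1 / 2) by norm_num, mul_pow]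
          ring

/-- the weighted rates, high groups -/
theorem wrateh (q : Pe6 κ lam N L C ℓ B) (hz : zz C x n t ≤ 1 + C n) {m : ℕ} (hm : n + 1 ≤ m) (k : ℕ) :
    κ ^ k * (L (m + k) * bh lam C x n (m + k) t) ≤
      L m * bh lam C x n m t * (1 / 2) ^ k := by
  have hκ0 := q.κ0
  have hκ : κ ^ k ≤ (1 / 1000) ^ k := pow_le_pow_left₀ hκ0.le q.κs k
  rw [q.Lk]
  have h1 := q.Lp m
  have hb : 0 < bh lam C x n m t := bh_pos _
  have h2 := bh_geo q hz hm k
  have h3 : lam * Real.exp (-(4 / 1000) * lam) ≤ 1 := by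
    have h4 := lρ q
    have h5 := q.sq_lam
    have h6 := q.sq_lam0
    linarith
  have hl := q.lamp
  have h4 : (lam * Real.exp (-(4 / 1000) * lam)) ^ k ≤ 1 := pow_le_one₀ (by positivity) h3
  have hb' := bh_pos (lam := lam) (C := C) (x := x) (n := n) (t := t) (m + k)
  calc κ ^ k * (lam ^ k * L m * bh lam C x n (m + k) t)
      ≤ (1 / 1000) ^ k * (lam ^ k * L m * (Real.exp (-(4 / 1000) * lam) ^ k * bh lam C x n m t)) := by
        gcongr
    _ = (1 / 1000) ^ k * (L m * bh lam C x n m t) * (lam * Real.exp (-(4 / 1000) * lam)) ^ k := by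
        rw [mul_pow]; ring
    _ ≤ (1 / 1000) ^ k * (L m * bh lam C x n m t) * 1 := by gcongr
    _ = (L m * bh lam C x n m t) * (1 / 1000) ^ k := by ring
    _ ≤ L m * bh lam C x n m t * (1 / 2) ^ k := by
        gcongr
        norm_num

end

/-! ### the bounds -/

theorem Zp_le {u V : ℕ → ℝ} {E : ℝ} (hE : 1 ≤ E) (hV : ∀ p, 0 ≤ V p) (hu : ∀ p, u p ≤ V p)
    (hs : ∀ p, V p ≤ E * V (p + 1)) (m : ℕ) : Zp u m ≤ 2 * E ^ 2 * V m := by
  have hEE : E ≤ E ^ 2 := by nlinarith
  rcases m with _ | m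
  · unfold Zp
    simp only [if_true, Nat.zero_le, add_zero]
    have := hV 0
    positivity
  · have h1 : u m ≤ E * V (m + 1) := (hu m).trans (hs m)
    have h2 : E * V (m + 1) ≤ E ^ 2 * V (m + 1) := mul_le_mul_of_nonneg_right hEE (hV _)
    rcases m with _ | m
    · unfold Zp
      simp only [Nat.add_one_ne_zero, if_false, le_refl, if_true, add_zero, Nat.add_sub_cancel]
      have := mul_nonneg (sq_nonneg E) (hV (0 + 1))
      linarith
    · have h3 : u m ≤ E ^ 2 * V (m + 1 + 1) := by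
        calc u m ≤ E * V (m + 1) := (hu m).trans (hs m)
          _ ≤ E * (E * V (m + 1 + 1)) := mul_le_mul_of_nonneg_left (hs _) (by linarith)
          _ = _ := by ring
      unfold Zp
      rw [if_neg (by omega), if_neg (by omega), Nat.add_sub_cancel,
        show m + 1 + 1 - 2 = m by omega]
      linarith

section

variable {κ lam N Q η : ℝ} {L C ℓ : ℕ → ℝ} {B : ℕ → ℕ → ℝ} {T : ℝ} {x w f : ℕ → ℝ → ℝ}
variable {n : ℕ} {t : ℝ}

theorem E_one (q : Pe6 κ lam N L C ℓ B) : 1 ≤ Real.exp (6 / 100 * lam) := by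
  have := q.lamp
  exact Real.one_le_exp (by positivity)

theorem w_tiny (g : Gd κ lam N Q η L C ℓ B T x w f) (P : Pt κ lam η L C T x w n t) (p : ℕ) :
    w p t ≤ 1 / 10 ^ 19 * bh lam C x n p t := by
  have h1 := P.W p
  have h2 := η_tiny g
  have hb := bh_pos (lam := lam) (C := C) (x := x) (n := n) (t := t) p
  nlinarith

theorem zp_le (g : Gd κ lam N Q η L C ℓ B T x w f) (P : Pt κ lam η L C T x w n t) (p : ℕ) :
    |x p t| + w p t ≤ 3 * bh lam C x n p t := by
  have h1 := g.x_le P.mem p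
  have h2 := P.Y p
  have h3 := w_tiny g P p
  have hb := bh_pos (lam := lam) (C := C) (x := x) (n := n) (t := t) p
  linarith

theorem zp_low (g : Gd κ lam N Q η L C ℓ B T x w f) (P : Pt κ lam η L C T x w n t) {p : ℕ}
    (hp : p ≤ n + 1) : |x p t| + w p t ≤ 151 / 100 := by
  have h1 := g.x_le P.mem p
  have h2 := P.Yl p hp
  have h3 := w_tiny g P p
  rw [bh_low hp] at h3
  linarith

theorem At_low (g : Gd κ lam N Q η L C ℓ B T x w f) (P : Pt κ lam η L C T x w n t) {m : ℕ}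
    (hm : m ≤ n + 2) : At lam x w m t ≤ 152 / 100 := by
  have h1 := G_le (s := (√lam)⁻¹) (c := 151 / 100) (z := fun p => |x p t| + w p t)
    g.q.sq_lam0.le g.q.sq_lam (by norm_num) m (fun p hp => zp_low g P (by omega))
  refine h1.trans ?_
  norm_num

theorem At_all (g : Gd κ lam N Q η L C ℓ B T x w f) (P : Pt κ lam η L C T x w n t) (m : ℕ) :
    At lam x w m t ≤ 31 / 10 := by
  have h1 := G_le (s := (√lam)⁻¹) (c := 3) (z := fun p => |x p t| + w p t)
    g.q.sq_lam0.le g.q.sq_lam (by norm_num) m (fun p hp => by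
      have h1 := zp_le g P p
      have h2 := bh_le_one g.q P.z1 p
      show |x p t| + w p t ≤ 3
      linarith)
  refine h1.trans ?_
  norm_num

theorem Y_all (g : Gd κ lam N Q η L C ℓ B T x w f) (P : Pt κ lam η L C T x w n t) (m : ℕ) :
    √(Yk κ x w m t) ≤ 2 := by
  have h1 := P.Y m
  have h2 := bh_le_one g.q P.z1 m
  linarith

theorem fac_le (g : Gd κ lam N Q η L C ℓ B T x w f) (P : Pt κ lam η L C T x w n t) (m : ℕ) :
    1 + At lam x w m t + √(Yk κ x w m t) ≤ 7 := by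
  have h1 := At_all g P m
  have h2 := Y_all g P m
  linarith

theorem fac_nonneg (g : Gd κ lam N Q η L C ℓ B T x w f) (P : Pt κ lam η L C T x w n t) (m : ℕ) :
    0 ≤ 1 + At lam x w m t + √(Yk κ x w m t) := by
  have h1 := g.A_nonneg P.mem m
  have h2 := Real.sqrt_nonneg (Yk κ x w m t)
  linarith

theorem Zz_nonneg (g : Gd κ lam N Q η L C ℓ B T x w f) (P : Pt κ lam η L C T x w n t) (m : ℕ) :
    0 ≤ √(Yk κ x w m t) + Zp (fun p => |x p t| + w p t) m := by
  have h0 : ∀ p, 0 ≤ |x p t| + w p t := fun p => add_nonneg (abs_nonneg _) (g.sy.w0 p t P.mem)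
  have h1 := Real.sqrt_nonneg (Yk κ x w m t)
  have h2 : 0 ≤ Zp (fun p => |x p t| + w p t) m := by
    unfold Zp
    refine add_nonneg ?_ ?_ <;> split_ifs
    · exact le_rfl
    · exact h0 _
    · exact le_rfl
    · exact h0 _
  linarith

theorem Zz_le (g : Gd κ lam N Q η L C ℓ B T x w f) (P : Pt κ lam η L C T x w n t) (m : ℕ) :
    √(Yk κ x w m t) + Zp (fun p => |x p t| + w p t) m ≤
      8 * Real.exp (6 / 100 * lam) ^ 2 * bh lam C x n m t := by
  have hE := E_one g.q
  have h1 := Zp_le (u := fun p => |x p t| + w p t) (V := fun p => 3 * bh lam C x n p t) hE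
    (fun p => by have := bh_pos (lam := lam) (C := C) (x := x) (n := n) (t := t) p; positivity)
    (fun p => zp_le g P p) (fun p => by
      have := bh_succ (x := x) (n := n) (t := t) g.q p
      show 3 * bh lam C x n p t ≤ Real.exp (6 / 100 * lam) * (3 * bh lam C x n (p + 1) t)
      linarith) m
  have h2 := P.Y m
  have hb := bh_pos (lam := lam) (C := C) (x := x) (n := n) (t := t) m
  have h3 : (1 : ℝ) ≤ Real.exp (6 / 100 * lam) ^ 2 := one_le_pow₀ hE
  have h4 : bh lam C x n m t ≤ Real.exp (6 / 100 * lam) ^ 2 * bh lam C x n m t :=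
    le_mul_of_one_le_left hb.le h3
  linarith

theorem Tk_nonneg (g : Gd κ lam N Q η L C ℓ B T x w f) (P : Pt κ lam η L C T x w n t) (m : ℕ) :
    0 ≤ Tk κ lam L x w m t := by
  unfold Tk
  exact mul_nonneg (mul_nonneg (g.q.Lp m).le (fac_nonneg g P m)) (Zz_nonneg g P m)

theorem Tk_le (g : Gd κ lam N Q η L C ℓ B T x w f) (P : Pt κ lam η L C T x w n t) (m : ℕ) :
    Tk κ lam L x w m t ≤
      56 * Real.exp (6 / 100 * lam) ^ 2 * (L m * bh lam C x n m t) := by
  have h1 := fac_le g P m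
  have h2 := Zz_le g P m
  have h3 := Zz_nonneg g P m
  have hL := g.q.Lp m
  unfold Tk
  calc L m * (1 + At lam x w m t + √(Yk κ x w m t)) *
        (√(Yk κ x w m t) + Zp (fun p => |x p t| + w p t) m)
      ≤ L m * 7 * (8 * Real.exp (6 / 100 * lam) ^ 2 * bh lam C x n m t) := by gcongr
    _ = _ := by ring

/-- the constant -/
noncomputable def c1 (lam : ℝ) : ℝ := 56 * Real.exp (6 / 100 * lam) ^ 2

theorem c1_pos (lam : ℝ) : 0 < c1 lam := by unfold c1; positivity

theorem TT_low (g : Gd κ lam N Q η L C ℓ B T x w f) (P : Pt κ lam η L C T x w n t) {m : ℕ}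
    (hm : m ≤ n + 1) :
    TTk κ lam L x w m t ≤ 2 * (c1 lam * ((1 / 500) ^ (n + 1 - m) * L (n + 1))) := by
  have hc := c1_pos lam
  have hL := g.q.Lp (n + 1)
  refine TT_le (T := fun k => Tk κ lam L x w (m + k) t) g.q.κ0 (by positivity)
    (fun k => Tk_nonneg g P _) (fun k => ?_)
  have h1 := Tk_le g P (m + k)
  have h2 := wrate g.q P.z1 hm k
  have hk := (g.q.κk0 k).le
  show κ ^ k * Tk κ lam L x w (m + k) t ≤ _
  calc κ ^ k * Tk κ lam L x w (m + k) t ≤ κ ^ k * (c1 lam * (L (m + k) * bh lam C x n (m + k) t)) := by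
        unfold c1
        gcongr
    _ = c1 lam * (κ ^ k * (L (m + k) * bh lam C x n (m + k) t)) := by ring
    _ ≤ c1 lam * ((1 / 500) ^ (n + 1 - m) * L (n + 1) * (1 / 2) ^ k) := by gcongr
    _ = _ := by ring

theorem TT_high (g : Gd κ lam N Q η L C ℓ B T x w f) (P : Pt κ lam η L C T x w n t) {m : ℕ}
    (hm : n + 1 ≤ m) :
    TTk κ lam L x w m t ≤ 2 * (c1 lam * (L m * bh lam C x n m t)) := by
  have hc := c1_pos lam
  have hL := g.q.Lp m
  have hb := bh_pos (lam := lam) (C := C) (x := x) (n := n) (t := t) m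
  refine TT_le (T := fun k => Tk κ lam L x w (m + k) t) g.q.κ0 (by positivity)
    (fun k => Tk_nonneg g P _) (fun k => ?_)
  have h1 := Tk_le g P (m + k)
  have h2 := wrateh g.q P.z1 hm k
  have hk := (g.q.κk0 k).le
  show κ ^ k * Tk κ lam L x w (m + k) t ≤ _
  calc κ ^ k * Tk κ lam L x w (m + k) t ≤ κ ^ k * (c1 lam * (L (m + k) * bh lam C x n (m + k) t)) := by
        unfold c1
        gcongr
    _ = c1 lam * (κ ^ k * (L (m + k) * bh lam C x n (m + k) t)) := by ring
    _ ≤ c1 lam * (L m * bh lam C x n m t * (1 / 2) ^ k) := by gcongr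
    _ = _ := by ring

theorem AT_le (g : Gd κ lam N Q η L C ℓ B T x w f) (P : Pt κ lam η L C T x w n t) (m : ℕ) :
    ATk κ lam L x w m t ≤ 2 * (c1 lam * L m) := by
  have hc := c1_pos lam
  have hL := g.q.Lp m
  have h1 := G_le (s := (√lam)⁻¹) (c := c1 lam * L m) (z := fun p => Tk κ lam L x w p t)
    g.q.sq_lam0.le g.q.sq_lam (by positivity) m (fun p hp => by
      have h1 := Tk_le g P p
      have h2 := bh_le_one g.q P.z1 p
      have h3 := g.q.Lmono hp.le
      have h4 := g.q.Lp p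
      show Tk κ lam L x w p t ≤ c1 lam * L m
      calc Tk κ lam L x w p t ≤ c1 lam * (L p * bh lam C x n p t) := h1
        _ ≤ c1 lam * (L p * 1) := by gcongr
        _ ≤ c1 lam * L m := by rw [mul_one]; gcongr)
  have h2 : 0 < c1 lam * L m := by positivity
  have h3 : ATk κ lam L x w m t ≤ 1001 / 1000 * (c1 lam * L m) := h1
  linarith

theorem ZT_le (g : Gd κ lam N Q η L C ℓ B T x w f) (P : Pt κ lam η L C T x w n t) (m : ℕ) :
    Zp (fun p => Tk κ lam L x w p t) m ≤
      2 * Real.exp (6 / 100 * lam) ^ 2 * (c1 lam * (L m * bh lam C x n m t)) := by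
  have hE := E_one g.q
  have hc := c1_pos lam
  refine Zp_le (u := fun p => Tk κ lam L x w p t)
    (V := fun p => c1 lam * (L p * bh lam C x n p t)) hE
    (fun p => by
      have := bh_pos (lam := lam) (C := C) (x := x) (n := n) (t := t) p
      have := g.q.Lp p
      positivity)
    (fun p => Tk_le g P p) (fun p => ?_) m
  have h1 := bh_succ (x := x) (n := n) (t := t) g.q p
  have h2 := g.q.Lmono (Nat.le_add_right p 1)
  have h3 := g.q.Lp p
  have h3' := g.q.Lp (p + 1)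
  have h4 := bh_pos (lam := lam) (C := C) (x := x) (n := n) (t := t) p
  show c1 lam * (L p * bh lam C x n p t) ≤
    Real.exp (6 / 100 * lam) * (c1 lam * (L (p + 1) * bh lam C x n (p + 1) t))
  calc c1 lam * (L p * bh lam C x n p t) ≤
        c1 lam * (L (p + 1) * (Real.exp (6 / 100 * lam) * bh lam C x n (p + 1) t)) := by gcongr
    _ = _ := by ring

theorem E4 (lam : ℝ) : Real.exp (6 / 100 * lam) ^ 4 = Real.exp (24 / 100 * lam) := by
  rw [← Real.exp_nat_mul]
  congr 1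
  push_cast
  ring

theorem R_high (g : Gd κ lam N Q η L C ℓ B T x w f) (P : Pt κ lam η L C T x w n t) {m : ℕ}
    (hm : n < m) :
    Rk κ lam L x w m t ≤ Real.exp (3 / 4 * lam) * (L m * bh lam C x n m t) := by
  have h1 := fac_le g P m
  have h1' := fac_nonneg g P m
  have h2 := TT_high g P (m := m) hm
  have h3 := ZT_le g P m
  have h4 := AT_le g P m
  have h5 := Zz_le g P m
  have h5' := Zz_nonneg g P m
  have hc := c1_pos lam
  have hL := g.q.Lp m
  have hb := bh_pos (lam := lam) (C := C) (x := x) (n := n) (t := t) m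
  have hb1 := bh_le_one g.q P.z1 m
  have hE := E_one g.q
  have hE2 : (1 : ℝ) ≤ Real.exp (6 / 100 * lam) ^ 2 := one_le_pow₀ hE
  obtain ⟨F, hF⟩ : ∃ F, F = Real.exp (6 / 100 * lam) ^ 2 := ⟨_, rfl⟩
  rw [← hF] at h3 h5 hE2
  obtain ⟨V, hV⟩ : ∃ V, V = L m * bh lam C x n m t := ⟨_, rfl⟩
  rw [← hV] at h2 h3 ⊢
  have hV0 : 0 < V := by rw [hV]; positivity
  have hVL : V ≤ L m := by
    rw [hV]
    exact mul_le_of_le_one_right hL.le hb1
  have hexp := expE g.q.lam_big 0 (by norm_num) (α := 24 / 100) (β := 3 / 4) (by norm_num)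
  rw [← E4, pow_zero, mul_one] at hexp
  have e4 : Real.exp (6 / 100 * lam) ^ 4 = F ^ 2 := by rw [hF]; ring
  rw [e4] at hexp
  have hc1 : c1 lam = 56 * F := by unfold c1; rw [hF]
  unfold Rk
  calc (1 + At lam x w m t + √(Yk κ x w m t)) *
        (TTk κ lam L x w m t + Zp (fun p => Tk κ lam L x w p t) m)
      + (ATk κ lam L x w m t + TTk κ lam L x w m t) *
        (√(Yk κ x w m t) + Zp (fun p => |x p t| + w p t) m)
      ≤ (1 + At lam x w m t + √(Yk κ x w m t)) *
        (2 * (c1 lam * V) + 2 * F * (c1 lam * V))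
      + (2 * (c1 lam * L m) + 2 * (c1 lam * V)) *
        (√(Yk κ x w m t) + Zp (fun p => |x p t| + w p t) m) := by gcongr
    _ ≤ 7 * (2 * (c1 lam * V) + 2 * F * (c1 lam * V))
      + (2 * (c1 lam * L m) + 2 * (c1 lam * V)) * (8 * F * bh lam C x n m t) := by gcongr
    _ ≤ 7 * (2 * F * (c1 lam * V) + 2 * F * (c1 lam * V))
      + (2 * (c1 lam * L m) + 2 * (c1 lam * L m)) * (8 * F * bh lam C x n m t) := by
        gcongr
        have : 0 < c1 lam * V := by positivity
        nlinarith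
    _ = (60 * F * c1 lam) * V := by rw [hV]; ring
    _ ≤ Real.exp (3 / 4 * lam) * V := by
        gcongr
        rw [hc1]
        nlinarith [sq_nonneg F]

theorem R_low (g : Gd κ lam N Q η L C ℓ B T x w f) (P : Pt κ lam η L C T x w n t) {m : ℕ}
    (hm : m ≤ n) :
    Rk κ lam L x w m t ≤ Real.exp (3 / 4 * lam) * ((1 / 2) ^ (n - m) * L n) := by
  have h1 := fac_le g P m
  have h1' := fac_nonneg g P m
  have h2 := TT_low g P (m := m) (by omega)
  have h3 := ZT_le g P m
  have h4 := AT_le g P m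
  have h5 := Zz_le g P m
  have h5' := Zz_nonneg g P m
  rw [bh_low (by omega), mul_one] at h3 h5
  have hc := c1_pos lam
  have hL := g.q.Lp m
  have hLn := g.q.Lp n
  have hE := E_one g.q
  have hl1 := g.q.lam1
  have hE2 : (1 : ℝ) ≤ Real.exp (6 / 100 * lam) ^ 2 := one_le_pow₀ hE
  obtain ⟨F, hF⟩ : ∃ F, F = Real.exp (6 / 100 * lam) ^ 2 := ⟨_, rfl⟩
  rw [← hF] at h3 h5 hE2
  obtain ⟨V, hV⟩ : ∃ V, V = (1 / 2 : ℝ) ^ (n - m) * L n := ⟨_, rfl⟩
  rw [← hV]
  have hV0 : 0 < V := by rw [hV]; positivity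
  have hLV : L m ≤ V := by rw [hV]; exact L_half g.q hm
  have hT : TTk κ lam L x w m t ≤ 2 * (c1 lam * (lam * V)) := by
    refine h2.trans ?_
    have h6 : ((1 : ℝ) / 500) ^ (n + 1 - m) ≤ (1 / 2) ^ (n - m) := by
      calc ((1 : ℝ) / 500) ^ (n + 1 - m) ≤ (1 / 2) ^ (n + 1 - m) := by gcongr; norm_num
        _ ≤ (1 / 2) ^ (n - m) := pow_le_pow_of_le_one (by norm_num) (by norm_num) (by omega)
    rw [g.q.L_succ n]
    have hl := g.q.lamp
    calc 2 * (c1 lam * ((1 / 500) ^ (n + 1 - m) * (lam * L n)))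
        ≤ 2 * (c1 lam * ((1 / 2) ^ (n - m) * (lam * L n))) := by gcongr
      _ = _ := by rw [hV]; ring
  have hexp := expE g.q.lam_big 1 (by norm_num) (α := 24 / 100) (β := 3 / 4) (by norm_num)
  rw [← E4, pow_one] at hexp
  have e4 : Real.exp (6 / 100 * lam) ^ 4 = F ^ 2 := by rw [hF]; ring
  rw [e4] at hexp
  have hc1 : c1 lam = 56 * F := by unfold c1; rw [hF]
  have hl := g.q.lamp
  have hcV : 0 < c1 lam * V := by positivity
  unfold Rk
  calc (1 + At lam x w m t + √(Yk κ x w m t)) *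
        (TTk κ lam L x w m t + Zp (fun p => Tk κ lam L x w p t) m)
      + (ATk κ lam L x w m t + TTk κ lam L x w m t) *
        (√(Yk κ x w m t) + Zp (fun p => |x p t| + w p t) m)
      ≤ (1 + At lam x w m t + √(Yk κ x w m t)) *
        (2 * (c1 lam * (lam * V)) + 2 * F * (c1 lam * L m))
      + (2 * (c1 lam * L m) + 2 * (c1 lam * (lam * V))) *
        (√(Yk κ x w m t) + Zp (fun p => |x p t| + w p t) m) := by gcongr
    _ ≤ 7 * (2 * (c1 lam * (lam * V)) + 2 * F * (c1 lam * V))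
      + (2 * (c1 lam * V) + 2 * (c1 lam * (lam * V))) * (8 * F) := by gcongr
    _ ≤ 7 * (2 * F * (lam * (c1 lam * V)) + 2 * F * (lam * (c1 lam * V)))
      + (2 * (lam * (c1 lam * V)) + 2 * (lam * (c1 lam * V))) * (8 * F) := by
        have a1 : c1 lam * V ≤ lam * (c1 lam * V) := le_mul_of_one_le_left hcV.le hl1
        have a2 : lam * (c1 lam * V) ≤ F * (lam * (c1 lam * V)) :=
          le_mul_of_one_le_left (by positivity) hE2
        have a3 : F * (c1 lam * V) ≤ F * (lam * (c1 lam * V)) := by gcongr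
        have a4 : c1 lam * V * F ≤ lam * (c1 lam * V) * F := by gcongr
        linarith
    _ = (60 * F * c1 lam * lam) * V := by ring
    _ ≤ Real.exp (3 / 4 * lam) * V := by
        gcongr
        rw [hc1]
        have : 0 ≤ lam * F ^ 2 := by positivity
        nlinarith

/-- the quadratic terms -/
theorem quad (g : Gd κ lam N Q η L C ℓ B T x w f) (P : Pt κ lam η L C T x w n t) (m : ℕ) :
    L m * (Aw lam w m t + √(Wk κ w m t)) * √(Wk κ w m t)
        + (if m = 0 then 0 else L (m - 1) * Aw lam w m t * w (m - 1) t)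
      ≤ 1 / Q * (L m * bh lam C x n m t) := by
  have hη := g.η0
  have hL := g.q.Lp m
  have hb := bh_pos (lam := lam) (C := C) (x := x) (n := n) (t := t) m
  have hb1 := bh_le_one g.q P.z1 m
  have hA : Aw lam w m t ≤ 4 * η := by
    have h1 := G_le (s := (√lam)⁻¹) (c := 2 * η) (z := fun p => w p t)
      g.q.sq_lam0.le g.q.sq_lam (by positivity) m (fun p hp => by
        have h1 := P.W p
        have h2 := bh_le_one g.q P.z1 p
        show w p t ≤ 2 * η
        nlinarith)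
    have h3 : Aw lam w m t ≤ 1001 / 1000 * (2 * η) := h1
    linarith
  have hA0 := g.Aw_nonneg P.mem m
  have hW : √(Wk κ w m t) ≤ 3 * η * bh lam C x n m t := by
    have h1 := g.W_of' P.mem P.z1 P.W m
    refine h1.trans ?_
    gcongr
    norm_num
  have hW0 := Real.sqrt_nonneg (Wk κ w m t)
  have hW1 : √(Wk κ w m t) ≤ 3 * η := by
    refine hW.trans ?_
    exact mul_le_of_le_one_right (by positivity) hb1
  have hE := E_one g.q
  obtain ⟨E, hEe⟩ : ∃ E, E = Real.exp (6 / 100 * lam) := ⟨_, rfl⟩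
  have h1 : L m * (Aw lam w m t + √(Wk κ w m t)) * √(Wk κ w m t) ≤
      21 * (η ^ 2 * (L m * bh lam C x n m t)) := by
    calc L m * (Aw lam w m t + √(Wk κ w m t)) * √(Wk κ w m t)
        ≤ L m * (4 * η + 3 * η) * (3 * η * bh lam C x n m t) := by gcongr
      _ = _ := by ring
  have h2 : (if m = 0 then 0 else L (m - 1) * Aw lam w m t * w (m - 1) t) ≤
      8 * E * (η ^ 2 * (L m * bh lam C x n m t)) := by
    rcases m with _ | m
    · rw [if_pos rfl, hEe]
      positivity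
    · rw [if_neg (by omega), Nat.add_sub_cancel]
      have h3 := P.W m
      have h4 := bh_succ (x := x) (n := n) (t := t) g.q m
      rw [← hEe] at h4
      have h5 := g.q.Lmono (Nat.le_add_right m 1)
      have h6 := g.q.Lp m
      have h7 := g.sy.w0 m t P.mem
      calc L m * Aw lam w (m + 1) t * w m t ≤
            L (m + 1) * (4 * η) * (2 * η * (E * bh lam C x n (m + 1) t)) := by
              gcongr
              exact h3.trans (by gcongr)
        _ = _ := by ring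
  have hQ := g.Q1
  have hQ0 : 0 < Q := by linarith
  have h3 : (21 + 8 * E) * η ^ 2 ≤ 1 / Q := by
    rw [le_div_iff₀ hQ0]
    have h4 := g.Qη
    have h5 : Real.exp (-(2 * lam)) = Real.exp (-2 * lam) := by congr 1; ring
    rw [h5] at h4
    have h6 : (21 + 8 * E) ≤ 29 * E := by
      have : 1 ≤ E := by rw [hEe]; exact hE
      linarith
    have h7 : E * Real.exp (-2 * lam) ≤ 1 / 10 ^ 20 := by
      rw [hEe, ← Real.exp_add, show 6 / 100 * lam + -2 * lam = (-(194 / 100)) * lam by ring]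
      exact g.q.exp_small (by norm_num)
    have hE0 : 0 < E := by rw [hEe]; positivity
    have h8 : 0 ≤ Q * η ^ 2 := by positivity
    calc (21 + 8 * E) * η ^ 2 * Q = (21 + 8 * E) * (Q * η ^ 2) := by ring
      _ ≤ 29 * E * Real.exp (-2 * lam) := by gcongr
      _ = 29 * (E * Real.exp (-2 * lam)) := by ring
      _ ≤ 29 * (1 / 10 ^ 20) := by gcongr
      _ ≤ 1 := by norm_num
  have hLb : 0 < L m * bh lam C x n m t := by positivity
  calc L m * (Aw lam w m t + √(Wk κ w m t)) * √(Wk κ w m t)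
        + (if m = 0 then 0 else L (m - 1) * Aw lam w m t * w (m - 1) t)
      ≤ 21 * (η ^ 2 * (L m * bh lam C x n m t)) + 8 * E * (η ^ 2 * (L m * bh lam C x n m t)) :=
        add_le_add h1 h2
    _ = (21 + 8 * E) * η ^ 2 * (L m * bh lam C x n m t) := by ring
    _ ≤ _ := by gcongr

/-- far levels -/
theorem A_far (g : Gd κ lam N Q η L C ℓ B T x w f) (P : Pt κ lam η L C T x w n t) :
    ∀ k : ℕ, At lam x w (n + 2 + k) t ≤ 4 * (k + 1) * (√lam)⁻¹ ^ k := by
  intro k
  induction k with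
  | zero =>
    have := At_low g P (m := n + 2) le_rfl
    rw [add_zero, pow_zero]
    push_cast
    linarith
  | succ k ih =>
    have h1 := zp_le g P (n + 2 + k)
    have h2 := bh_geo g.q P.z1 (le_refl (n + 1)) (k + 1)
    rw [bh_low le_rfl, mul_one, show n + 1 + (k + 1) = n + 2 + k by ring] at h2
    have h3 : Real.exp (-(4 / 1000) * lam) ^ (k + 1) ≤ (√lam)⁻¹ ^ (k + 1) :=
      pow_le_pow_left₀ (Real.exp_pos _).le (ρs g.q) _
    have h4 := g.q.sq_lam0
    have h5 : 0 < (√lam)⁻¹ ^ (k + 1) := by positivity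
    calc At lam x w (n + 2 + (k + 1)) t = At lam x w (n + 2 + k + 1) t := rfl
      _ = (√lam)⁻¹ * At lam x w (n + 2 + k) t + (|x (n + 2 + k) t| + w (n + 2 + k) t) :=
          Gd.A_succ _ _
      _ ≤ (√lam)⁻¹ * (4 * (k + 1) * (√lam)⁻¹ ^ k) + 3 * (√lam)⁻¹ ^ (k + 1) := by
          gcongr
          linarith
      _ ≤ 4 * ((k + 1 : ℕ) + 1) * (√lam)⁻¹ ^ (k + 1) := by
          push_cast
          have e : (√lam)⁻¹ * (4 * ((k : ℝ) + 1) * (√lam)⁻¹ ^ k) =
            4 * (k + 1) * (√lam)⁻¹ ^ (k + 1) := by ring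
          rw [e]
          linarith

end

/-- **RKB** -/
theorem rkb : S_RKB := by
  intro κ lam N Q η L C ℓ B T x w f n t g P
  have q := g.q
  refine ⟨?_, ?_, ?_, ?_, ?_, ?_, ?_, ?_⟩
  · intro p
    refine (Tk_le g P p).trans ?_
    have hexp := expE g.q.lam_big 0 (by norm_num) (α := 12 / 100) (β := 1 / 2) (by norm_num)
    have e2 : Real.exp (6 / 100 * lam) ^ 2 = Real.exp (12 / 100 * lam) := by
      rw [← Real.exp_nat_mul]
      congr 1
      push_cast
      ring
    rw [← e2, pow_zero, mul_one] at hexp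
    have hL := q.Lp p
    have hb := bh_pos (lam := lam) (C := C) (x := x) (n := n) (t := t) p
    have h0 : 0 ≤ Real.exp (6 / 100 * lam) ^ 2 := by positivity
    gcongr
    linarith
  · intro m hm
    have h1 := At_low g P (m := m) (by omega)
    have h2 := P.Yl m (by omega)
    linarith
  · intro m
    have h1 := At_all g P m
    have h2 := Y_all g P m
    linarith
  · intro k hk
    obtain ⟨j, rfl⟩ := Nat.exists_eq_add_of_le' hk
    have h1 := A_far g P j
    have h2 := P.Y (n + 2 + j)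
    have h3 := bh_geo g.q P.z1 (le_refl (n + 1)) (j + 1)
    rw [bh_low le_rfl, mul_one, show n + 1 + (j + 1) = n + 2 + j by ring] at h3
    have h4 := g.q.sq_lam0
    have h5 : Real.exp (-(4 / 1000) * lam) ^ (j + 1) ≤ (√lam)⁻¹ ^ j := by
      calc Real.exp (-(4 / 1000) * lam) ^ (j + 1) ≤ (√lam)⁻¹ ^ (j + 1) :=
            pow_le_pow_left₀ (Real.exp_pos _).le (ρs g.q) _
        _ ≤ (√lam)⁻¹ ^ j := pow_le_pow_of_le_one h4.le
            (g.q.sq_lam.trans (by norm_num)) (by omega)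
    rw [show n + 1 + (j + 1) = n + 2 + j by ring, Nat.add_sub_cancel, ← inv_pow]
    have h6 : 0 < (√lam)⁻¹ ^ j := by positivity
    push_cast
    have h7 : (0 : ℝ) ≤ j * (√lam)⁻¹ ^ j := by positivity
    nlinarith
  · intro m hm
    exact R_low g P hm
  · intro m hm
    exact R_high g P hm
  · intro m hm
    have hQ := g.Q1
    have hQ0 : 0 < Q := by linarith
    refine (quad g P m).trans ?_
    rw [bh_low (by omega), mul_one]
    have := L_half g.q hm
    gcongr
  · intro m _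
    exact quad g P m

end Pool.Agent.Y655.SK
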